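import Mathlib

/-!
Loops that are abelian groups modulo the left nucleus: if all isotopes `(1, b)` are flexible, then
all isotopes `(a, b)` are flexible.  Mirror statement for the right nucleus.
-/

namespace Pool.Agent.Results.MP_ca1f03_al.AbelianModNucleus

/-- A loop: a set with a multiplication and a two-sided identity `1` such that all left
multiplications and all right multiplications are bijections. -/
class Lp (Q : Type*) extends Mul Q, One Q where
  one_mul' : ∀ x : Q, 1 * x = x
  mul_one' : ∀ x : Q, x * 1 = x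
  left_bij : ∀ a : Q, Function.Bijective (fun x : Q => a * x)
  right_bij : ∀ a : Q, Function.Bijective (fun x : Q => x * a)

variable {Q : Type*} [Lp Q]

/-- `ld a y` is the unique `z` with `a * z = y`. -/
noncomputable def ld (a y : Q) : Q := (Equiv.ofBijective _ (Lp.left_bij a)).symm y

/-- `rd y a` is the unique `z` with `z * a = y`. -/
noncomputable def rd (y a : Q) : Q := (Equiv.ofBijective _ (Lp.right_bij a)).symm y

/-- The principal isotope determined by `(a, b)`: the product of `x` and `y` is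
`(x / a) * (b \ y)`. -/
noncomputable def isotope (a b x y : Q) : Q := rd x a * ld b y

/-- Flexibility of an operation. -/
def Flexible {X : Type*} (op : X → X → X) : Prop := ∀ x y, op x (op y x) = op (op x y) x

/-- `c` is in the left nucleus. -/
def LeftNuclear (c : Q) : Prop := ∀ x y : Q, (c * x) * y = c * (x * y)

/-- `c` is in the right nucleus. -/
def RightNuclear (c : Q) : Prop := ∀ x y : Q, (x * y) * c = x * (y * c)

/-- All commutators and all associators lie in the left nucleus, that is, modulo the left nucleus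
the loop is an abelian group. -/
def AbelianModLeft (Q : Type*) [Lp Q] : Prop :=
  (∀ x y : Q, ∃ c : Q, LeftNuclear c ∧ x * y = c * (y * x)) ∧
    (∀ x y z : Q, ∃ c : Q, LeftNuclear c ∧ (x * y) * z = c * (x * (y * z)))

/-- All commutators and all associators lie in the right nucleus, that is, modulo the right nucleus
the loop is an abelian group. -/
def AbelianModRight (Q : Type*) [Lp Q] : Prop :=
  (∀ x y : Q, ∃ c : Q, RightNuclear c ∧ x * y = (y * x) * c) ∧
    (∀ x y z : Q, ∃ c : Q, RightNuclear c ∧ (x * y) * z = (x * (y * z)) * c)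

theorem mul_ld (a y : Q) : a * ld a y = y :=
  (Equiv.ofBijective _ (Lp.left_bij a)).apply_symm_apply y

theorem rd_mul (y a : Q) : rd y a * a = y :=
  (Equiv.ofBijective _ (Lp.right_bij a)).apply_symm_apply y

theorem lcan {a x y : Q} (h : a * x = a * y) : x = y := (Lp.left_bij a).1 h

theorem rcan {a x y : Q} (h : x * a = y * a) : x = y := (Lp.right_bij a).1 h

theorem ld_eq {a y z : Q} (h : a * z = y) : ld a y = z := lcan ((mul_ld a y).trans h.symm)

theorem rd_eq {a y z : Q} (h : z * a = y) : rd y a = z := rcan ((rd_mul y a).trans h.symm)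

theorem alg1 {G : Type*} [CommSemigroup G] (hc : ∀ x y z : G, x * z = y * z → x = y)
    {U A X B V W Y D : G} (h1 : U * A = X) (h2 : B * V = X) (h3 : W * A = Y)
    (h4 : Y * D = W * V) : U = B * D :=
  hc _ _ Y (by
    calc U * Y = U * (W * A) := by rw [h3]
      _ = W * (U * A) := mul_left_comm _ _ _
      _ = W * (B * V) := by rw [h1, h2]
      _ = B * (W * V) := mul_left_comm _ _ _
      _ = B * (Y * D) := by rw [h4]
      _ = B * D * Y := by rw [mul_comm Y D, mul_assoc])

theorem alg2 {G : Type*} [CommSemigroup G] (hc : ∀ x y z : G, x * z = y * z → x = y)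
    {U A B W Y D Z E : G} (h1 : Z * A = U * E) (h2 : B * E = Y) (h3 : U = B * D)
    (h4 : W * A = Y) : Z = W * D :=
  hc _ _ A (by
    calc Z * A = B * D * E := by rw [h1, h3]
      _ = (B * E) * D := mul_right_comm _ _ _
      _ = (W * A) * D := by rw [h2, h4]
      _ = W * D * A := mul_right_comm _ _ _)

/-! ### The left side -/

section left

theorem ln_one : LeftNuclear (1 : Q) := by
  intro x y
  rw [Lp.one_mul', Lp.one_mul']

theorem ln_mul {c d : Q} (hc : LeftNuclear c) (hd : LeftNuclear d) : LeftNuclear (c * d) := by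
  intro x y
  rw [hc d x, hc (d * x) y, hd x y, hc d (x * y)]

theorem ln_inv {c : Q} (hc : LeftNuclear c) : LeftNuclear (ld c 1) := by
  have e1 : ∀ x : Q, c * (ld c 1 * x) = x := fun x => by
    rw [← hc (ld c 1) x, mul_ld, Lp.one_mul']
  intro x y
  apply lcan (a := c)
  rw [e1, ← hc (ld c 1 * x) y, e1]

/-- Two elements that differ by a left nuclear factor on the left. -/
def relL (x y : Q) : Prop := ∃ c : Q, LeftNuclear c ∧ x = c * y

theorem relL_refl (x : Q) : relL x x := ⟨1, ln_one, (Lp.one_mul' x).symm⟩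

theorem relL_trans {x y z : Q} (h1 : relL x y) (h2 : relL y z) : relL x z := by
  obtain ⟨c, hc, rfl⟩ := h1
  obtain ⟨d, hd, rfl⟩ := h2
  exact ⟨c * d, ln_mul hc hd, (hc d z).symm⟩

theorem relL_symm {x y : Q} (h : relL x y) : relL y x := by
  obtain ⟨c, hc, rfl⟩ := h
  refine ⟨ld c 1, ln_inv hc, ?_⟩
  apply lcan (a := c)
  rw [← hc (ld c 1) (c * y), mul_ld, Lp.one_mul']

theorem relL_mul_right {x y : Q} (z : Q) (h : relL x y) : relL (x * z) (y * z) := by
  obtain ⟨c, hc, rfl⟩ := h
  exact ⟨c, hc, hc y z⟩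

theorem relL_cancel_right {x y z : Q} (h : relL (x * z) (y * z)) : relL x y := by
  obtain ⟨c, hc, h⟩ := h
  exact ⟨c, hc, rcan (h.trans (hc y z).symm)⟩

/-- The congruence modulo the left nucleus. -/
def setL (Q : Type*) [Lp Q] : Setoid Q := ⟨relL, relL_refl, relL_symm, relL_trans⟩

theorem relL_mul_left (hQ : AbelianModLeft Q) {x y : Q} (z : Q) (h : relL x y) :
    relL (z * x) (z * y) :=
  relL_trans (hQ.1 z x) (relL_trans (relL_mul_right z h) (hQ.1 y z))

/-- The quotient by the left nucleus, as a commutative semigroup. -/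
@[reducible] def semiL (hQ : AbelianModLeft Q) : CommSemigroup (Quotient (setL Q)) where
  mul := Quotient.map₂ (· * ·) (fun _ _ h _ _ h' =>
    relL_trans (relL_mul_right _ h) (relL_mul_left hQ _ h'))
  mul_assoc := by
    rintro ⟨x⟩ ⟨y⟩ ⟨z⟩
    exact Quotient.sound (hQ.2 x y z)
  mul_comm := by
    rintro ⟨x⟩ ⟨y⟩
    exact Quotient.sound (hQ.1 x y)

theorem stepL (hf : ∀ b : Q, Flexible (isotope (1 : Q) b)) {b D u : Q} (t : Q)
    (h : relL u (b * D)) : u * ld b (t * D) = (u * ld b t) * D := by
  obtain ⟨c, hc, rfl⟩ := h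
  have h1 := hf b (b * D) t
  unfold isotope at h1
  have e0 : ∀ x : Q, rd x 1 = x := fun x => rd_eq (Lp.mul_one' x)
  have e1 : ld b (b * D) = D := ld_eq rfl
  rw [e0, e0, e0, e1] at h1
  rw [hc, h1, hc, hc]

theorem mainL (hQ : AbelianModLeft Q) (hf : ∀ b : Q, Flexible (isotope (1 : Q) b)) (a b : Q) :
    Flexible (isotope a b) := by
  intro x y
  unfold isotope
  set u := rd x a with hu
  set v := ld b x with hv
  set w := rd y a with hw
  set D := ld y (w * v) with hD
  set z := rd (u * ld b y) a with hz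
  have hua : u * a = x := rd_mul x a
  have hbv : b * v = x := mul_ld b x
  have hwa : w * a = y := rd_mul y a
  have hyD : y * D = w * v := mul_ld y (w * v)
  have hza : z * a = u * ld b y := rd_mul _ a
  have hby : b * ld b y = y := mul_ld b y
  letI := semiL hQ
  let φ : Q → Quotient (setL Q) := fun q => Quotient.mk _ q
  have hφ : ∀ p q : Q, φ (p * q) = φ p * φ q := fun _ _ => rfl
  have hc : ∀ p q r : Quotient (setL Q), p * r = q * r → p = q := by
    rintro ⟨p⟩ ⟨q⟩ ⟨r⟩ h
    exact Quotient.sound (relL_cancel_right (Quotient.exact h))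
  have k1 : φ u = φ b * φ D := alg1 hc (by rw [← hφ, hua]) (by rw [← hφ, hbv])
    (by rw [← hφ, hwa]) (by rw [← hφ, ← hφ, hyD])
  have k2 : φ z = φ w * φ D := alg2 hc (by rw [← hφ, ← hφ, hza])
    (by rw [← hφ, hby]) k1 (by rw [← hφ, hwa])
  have c1 : relL u (b * D) := Quotient.exact k1
  have c2 : relL z (w * D) := Quotient.exact k2
  have s1 := stepL hf y c1
  have s2 := stepL hf y c2
  rw [hyD] at s1 s2
  have e1 : ld w (w * v) = v := ld_eq rfl
  have e2 : ld w y = a := ld_eq hwa
  rw [e1, e2, hza] at s2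
  rw [s1, s2]

end left

/-! ### The right side -/

section right

theorem rn_one : RightNuclear (1 : Q) := by
  intro x y
  rw [Lp.mul_one', Lp.mul_one']

theorem rn_mul {c d : Q} (hc : RightNuclear c) (hd : RightNuclear d) : RightNuclear (c * d) := by
  intro x y
  rw [← hd (x * y) c, hc x y, hd x (y * c), hd y c]

theorem rn_inv {c : Q} (hc : RightNuclear c) : RightNuclear (rd 1 c) := by
  have e1 : ∀ x : Q, (x * rd 1 c) * c = x := fun x => by
    rw [hc x (rd 1 c), rd_mul, Lp.mul_one']
  intro x y
  apply rcan (a := c)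
  rw [e1, hc x (y * rd 1 c), e1]

/-- Two elements that differ by a right nuclear factor on the right. -/
def relR (x y : Q) : Prop := ∃ c : Q, RightNuclear c ∧ x = y * c

theorem relR_refl (x : Q) : relR x x := ⟨1, rn_one, (Lp.mul_one' x).symm⟩

theorem relR_trans {x y z : Q} (h1 : relR x y) (h2 : relR y z) : relR x z := by
  obtain ⟨c, hc, rfl⟩ := h1
  obtain ⟨d, hd, rfl⟩ := h2
  exact ⟨d * c, rn_mul hd hc, hc z d⟩

theorem relR_symm {x y : Q} (h : relR x y) : relR y x := by
  obtain ⟨c, hc, rfl⟩ := h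
  refine ⟨rd 1 c, rn_inv hc, ?_⟩
  apply rcan (a := c)
  rw [hc (y * c) (rd 1 c), rd_mul, Lp.mul_one']

theorem relR_mul_left {x y : Q} (z : Q) (h : relR x y) : relR (z * x) (z * y) := by
  obtain ⟨c, hc, rfl⟩ := h
  exact ⟨c, hc, (hc z y).symm⟩

theorem relR_cancel_left {x y z : Q} (h : relR (z * x) (z * y)) : relR x y := by
  obtain ⟨c, hc, h⟩ := h
  exact ⟨c, hc, lcan (h.trans (hc z y))⟩

/-- The congruence modulo the right nucleus. -/
def setR (Q : Type*) [Lp Q] : Setoid Q := ⟨relR, relR_refl, relR_symm, relR_trans⟩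

theorem relR_mul_right (hQ : AbelianModRight Q) {x y : Q} (z : Q) (h : relR x y) :
    relR (x * z) (y * z) :=
  relR_trans (hQ.1 x z) (relR_trans (relR_mul_left z h) (hQ.1 z y))

/-- The quotient by the right nucleus, as a commutative semigroup. -/
@[reducible] def semiR (hQ : AbelianModRight Q) : CommSemigroup (Quotient (setR Q)) where
  mul := Quotient.map₂ (· * ·) (fun _ _ h _ _ h' =>
    relR_trans (relR_mul_right hQ _ h) (relR_mul_left _ h'))
  mul_assoc := by
    rintro ⟨x⟩ ⟨y⟩ ⟨z⟩
    exact Quotient.sound (hQ.2 x y z)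
  mul_comm := by
    rintro ⟨x⟩ ⟨y⟩
    exact Quotient.sound (hQ.1 x y)

theorem stepR (hf : ∀ a : Q, Flexible (isotope a (1 : Q))) {a D u : Q} (t : Q)
    (h : relR u (D * a)) : rd (D * t) a * u = D * (rd t a * u) := by
  obtain ⟨c, hc, rfl⟩ := h
  have h1 := hf a (D * a) t
  unfold isotope at h1
  have e0 : ∀ x : Q, ld 1 x = x := fun x => ld_eq (Lp.one_mul' x)
  have e1 : rd (D * a) a = D := rd_eq rfl
  rw [e0, e0, e0, e1] at h1
  rw [← hc, ← h1, hc, hc]

theorem mainR (hQ : AbelianModRight Q) (hf : ∀ a : Q, Flexible (isotope a (1 : Q))) (a b : Q) :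
    Flexible (isotope a b) := by
  intro x y
  unfold isotope
  set u := rd x a with hu
  set v := ld b x with hv
  set w := ld b y with hw
  set D := rd (u * w) y with hD
  set z := ld b (rd y a * v) with hz
  have hua : u * a = x := rd_mul x a
  have hbv : b * v = x := mul_ld b x
  have hbw : b * w = y := mul_ld b y
  have hDy : D * y = u * w := rd_mul (u * w) y
  have hbz : b * z = rd y a * v := mul_ld b _
  have hya : rd y a * a = y := rd_mul y a
  letI := semiR hQ
  let φ : Q → Quotient (setR Q) := fun q => Quotient.mk _ q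
  have hφ : ∀ p q : Q, φ (p * q) = φ p * φ q := fun _ _ => rfl
  have hc : ∀ p q r : Quotient (setR Q), p * r = q * r → p = q := by
    intro p q r h
    rw [mul_comm p r, mul_comm q r] at h
    revert h
    refine Quotient.inductionOn₃ p q r ?_
    intro p q r h
    exact Quotient.sound (relR_cancel_left (Quotient.exact h))
  have k1 : φ v = φ a * φ D := alg1 hc (X := φ x) (W := φ w) (Y := φ y)
    (A := φ b) (V := φ u)
    (by rw [mul_comm, ← hφ, hbv]) (by rw [mul_comm, ← hφ, hua])
    (by rw [mul_comm, ← hφ, hbw]) (by rw [mul_comm, ← hφ, mul_comm (φ w), ← hφ, hDy])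
  have k2 : φ z = φ w * φ D := alg2 hc (A := φ b) (U := φ v) (B := φ a) (Y := φ y)
    (E := φ (rd y a)) (by rw [mul_comm, ← hφ, mul_comm (φ v), ← hφ, hbz])
    (by rw [mul_comm, ← hφ, hya]) k1 (by rw [mul_comm, ← hφ, hbw])
  have c1 : relR v (D * a) := Quotient.exact (k1.trans (mul_comm _ _))
  have c2 : relR z (D * w) := Quotient.exact (k2.trans (mul_comm _ _))
  have s1 := stepR hf y c1
  have s2 := stepR hf y c2
  rw [hDy] at s1 s2
  have e1 : rd (u * w) w = u := rd_eq rfl
  have e2 : rd y w = b := rd_eq hbw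
  rw [e1, e2, hbz] at s2
  rw [s2, s1]

end right

/-- Let `Q` be a loop. If `Q` is an abelian group modulo its left nucleus and all isotopes
`(1, b)` are flexible, or `Q` is an abelian group modulo its right nucleus and all isotopes
`(a, 1)` are flexible, then all isotopes of `Q` are flexible. -/
theorem result (Q : Type*) [Lp Q]
    (h : (AbelianModLeft Q ∧ ∀ b : Q, Flexible (isotope (1 : Q) b)) ∨
      (AbelianModRight Q ∧ ∀ a : Q, Flexible (isotope a (1 : Q)))) :
    ∀ a b : Q, Flexible (isotope a b) := by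
  rcases h with ⟨hQ, hf⟩ | ⟨hQ, hf⟩
  · exact mainL hQ hf
  · exact mainR hQ hf

end Pool.Agent.Results.MP_ca1f03_al.AbelianModNucleus
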